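import Mathlib
import Pool.Agent.H6.FI.TargetsA

namespace Pool.Agent.H34.FI

open _root_.FI

theorem ns_pow39 (t : ℕ) (ht : 5 ≤ t) : t ^ 39 ≤ 24 ^ (4 * t) := by
  induction t, ht using Nat.le_induction with
  | base => norm_num
  | succ t ht ih =>
    have h1 : 5 ^ 39 * (t + 1) ^ 39 ≤ 5 ^ 39 * (24 ^ 4 * t ^ 39) := by
      calc 5 ^ 39 * (t + 1) ^ 39 = (5 * (t + 1)) ^ 39 := by rw [mul_pow]
        _ ≤ (6 * t) ^ 39 := Nat.pow_le_pow_left (by omega) _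
        _ = 6 ^ 39 * t ^ 39 := by rw [mul_pow]
        _ ≤ (5 ^ 39 * 24 ^ 4) * t ^ 39 := Nat.mul_le_mul_right _ (by norm_num)
        _ = 5 ^ 39 * (24 ^ 4 * t ^ 39) := by rw [mul_assoc]
    have h2 : (t + 1) ^ 39 ≤ 24 ^ 4 * t ^ 39 := Nat.le_of_mul_le_mul_left h1 (by norm_num)
    calc (t + 1) ^ 39 ≤ 24 ^ 4 * t ^ 39 := h2
      _ ≤ 24 ^ 4 * 24 ^ (4 * t) := Nat.mul_le_mul_left _ ih
      _ = 24 ^ (4 * (t + 1)) := by rw [← pow_add]; ring_nf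

theorem ns_three : (2 : ℕ) ^ 633 ≤ 3 ^ 400 := by
  have h1 : (2 : ℕ) ^ 19 ≤ 3 ^ 12 := by norm_num
  have h2 : ((2 : ℕ) ^ 19) ^ 33 ≤ (3 ^ 12) ^ 33 := Nat.pow_le_pow_left h1 _
  have h3 : ((2 : ℕ) ^ 19) ^ 33 * 2 ^ 6 ≤ (3 ^ 12) ^ 33 * 3 ^ 4 :=
    Nat.mul_le_mul h2 (by norm_num)
  have h4 : (2 : ℕ) ^ 633 = (2 ^ 19) ^ 33 * 2 ^ 6 := by rw [← pow_mul, ← pow_add]
  have h5 : (3 : ℕ) ^ 400 = (3 ^ 12) ^ 33 * 3 ^ 4 := by rw [← pow_mul, ← pow_add]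
  rw [h4, h5]; exact h3

theorem ns_nat (p j : ℕ) (hp : p.Prime) : (p ^ j) ^ 975 ≤ 24 ^ (100 * p ^ j) * p ^ 117 := by
  have hpp : 1 ≤ p ^ 117 := Nat.one_le_pow _ _ hp.pos
  have ht0 : 1 ≤ p ^ j := Nat.one_le_pow _ _ hp.pos
  by_cases h5 : 5 ≤ p ^ j
  · have h := Nat.pow_le_pow_left (ns_pow39 (p ^ j) h5) 25
    rw [← pow_mul (p ^ j) 39 25, ← pow_mul 24 (4 * p ^ j) 25] at h
    calc (p ^ j) ^ 975 ≤ 24 ^ (4 * p ^ j * 25) := h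
      _ = 24 ^ (100 * p ^ j) * 1 := by rw [mul_one]; congr 1; ring
      _ ≤ 24 ^ (100 * p ^ j) * p ^ 117 := Nat.mul_le_mul_left _ hpp
  · push Not at h5
    have hj : p ^ j ≠ 1 → p ∣ p ^ j := by
      intro h
      apply dvd_pow_self
      intro h0
      apply h
      rw [h0, pow_zero]
    have hcases : p ^ j = 1 ∨ p ^ j = 2 ∨ p ^ j = 3 ∨ p ^ j = 4 := by omega
    rcases hcases with h | h | h | h
    · rw [h, one_pow]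
      exact Nat.succ_le_of_lt (Nat.mul_pos (by positivity) hpp)
    · have hd := hj (by omega)
      rw [h] at hd
      have hp2 : p = 2 := (Nat.prime_dvd_prime_iff_eq hp Nat.prime_two).mp hd
      rw [h, hp2]
      have h1 : (2 : ℕ) ^ 39 ≤ 24 ^ 8 * 2 ^ 4 := by norm_num
      have h2 : ((2 : ℕ) ^ 39) ^ 25 ≤ (24 ^ 8 * 2 ^ 4) ^ 25 := Nat.pow_le_pow_left h1 25
      rw [mul_pow, ← pow_mul 2 39 25, ← pow_mul 24 8 25, ← pow_mul 2 4 25] at h2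
      calc (2 : ℕ) ^ 975 ≤ 24 ^ (8 * 25) * 2 ^ (4 * 25) := h2
        _ ≤ 24 ^ (100 * 2) * 2 ^ 117 :=
          Nat.mul_le_mul (le_of_eq (by congr 1)) (Nat.pow_le_pow_right (by norm_num) (by norm_num))
    · have hd := hj (by omega)
      rw [h] at hd
      have hp2 : p = 3 := (Nat.prime_dvd_prime_iff_eq hp Nat.prime_three).mp hd
      rw [h, hp2]
      have h1 : (3 : ℕ) ^ 143 ≤ 24 ^ 50 := by norm_num
      have h2 := Nat.pow_le_pow_left h1 6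
      rw [← pow_mul, ← pow_mul] at h2
      calc (3 : ℕ) ^ 975 = 3 ^ (143 * 6) * 3 ^ 117 := by rw [← pow_add]
        _ ≤ 24 ^ (50 * 6) * 3 ^ 117 := Nat.mul_le_mul_right _ h2
        _ = 24 ^ (100 * 3) * 3 ^ 117 := by congr 1
    · have hd := hj (by omega)
      rw [h] at hd
      have hp2 : p = 2 := by
        have : p ∣ 2 ^ 2 := by simpa using hd
        exact (Nat.prime_dvd_prime_iff_eq hp Nat.prime_two).mp (hp.dvd_of_dvd_pow this)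
      rw [h, hp2]
      have h6 : (24 : ℕ) ^ (100 * 4) = 2 ^ 1200 * 3 ^ 400 := by
        have : (24 : ℕ) = 2 ^ 3 * 3 := by norm_num
        rw [this, mul_pow, ← pow_mul]
      have h7 : (4 : ℕ) ^ 975 = 2 ^ 1200 * (2 ^ 633 * 2 ^ 117) := by
        have : (4 : ℕ) = 2 ^ 2 := by norm_num
        rw [this, ← pow_mul, ← pow_add, ← pow_add]
      rw [h6, h7, mul_assoc]
      exact Nat.mul_le_mul_left _ (Nat.mul_le_mul_right _ ns_three)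

theorem ns_c0_pos : 0 < c0 := by unfold c0; positivity

theorem ns_c0_one : 1 ≤ c0 := by
  unfold c0
  exact Real.one_le_rpow (by norm_num) (by norm_num)

theorem ns_c0_cube : c0 ^ 3 = 24 := by
  unfold c0
  rw [← Real.rpow_natCast, ← Real.rpow_mul (by norm_num)]
  norm_num

theorem ns_real (p j : ℕ) (hp : p.Prime) :
    ((p ^ j : ℕ) : ℝ) ^ ((13 : ℝ) / 4) ≤ c0 ^ (p ^ j) * (p : ℝ) ^ ((39 : ℝ) / 100) := by
  have hc := ns_c0_pos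
  have hp0 : (0 : ℝ) ≤ p := Nat.cast_nonneg _
  have ht0 : (0 : ℝ) ≤ ((p ^ j : ℕ) : ℝ) := Nat.cast_nonneg _
  have hy : 0 ≤ c0 ^ (p ^ j) * (p : ℝ) ^ ((39 : ℝ) / 100) := by positivity
  have h300 : (((p ^ j : ℕ) : ℝ) ^ ((13 : ℝ) / 4)) ^ 300 ≤
      (c0 ^ (p ^ j) * (p : ℝ) ^ ((39 : ℝ) / 100)) ^ 300 := by
    have e1 : (((p ^ j : ℕ) : ℝ) ^ ((13 : ℝ) / 4)) ^ 300 = (((p ^ j) ^ 975 : ℕ) : ℝ) := by
      rw [← Real.rpow_natCast, ← Real.rpow_mul ht0]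
      rw [show (13 : ℝ) / 4 * ((300 : ℕ) : ℝ) = ((975 : ℕ) : ℝ) by norm_num, Real.rpow_natCast]
      push_cast
      rfl
    have e2 : (c0 ^ (p ^ j) * (p : ℝ) ^ ((39 : ℝ) / 100)) ^ 300
        = ((24 ^ (100 * p ^ j) * p ^ 117 : ℕ) : ℝ) := by
      rw [mul_pow]
      have a1 : (c0 ^ (p ^ j)) ^ 300 = (24 : ℝ) ^ (100 * p ^ j) := by
        rw [← ns_c0_cube, ← pow_mul, ← pow_mul]
        congr 1
        ring
      have a2 : ((p : ℝ) ^ ((39 : ℝ) / 100)) ^ 300 = (p : ℝ) ^ 117 := by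
        rw [← Real.rpow_natCast, ← Real.rpow_mul hp0]
        rw [show (39 : ℝ) / 100 * ((300 : ℕ) : ℝ) = ((117 : ℕ) : ℝ) by norm_num,
          Real.rpow_natCast]
      rw [a1, a2]
      push_cast
      rfl
    rw [e1, e2]
    exact_mod_cast ns_nat p j hp
  exact le_of_pow_le_pow_left₀ (by norm_num) hy h300

theorem pf_NS : T_NS := by
  intro p k j a m i hp hjk ha hi hm
  have hc := ns_c0_pos
  have hc1 := ns_c0_one
  have hp0 : (0 : ℝ) ≤ p := Nat.cast_nonneg _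
  have hp1 : (1 : ℝ) ≤ p := by exact_mod_cast hp.one_le
  have ha1 : 1 ≤ a := le_trans (Nat.one_le_pow _ _ hp.pos) ha
  have hkey : ((p ^ k : ℕ) : ℝ) ^ ((13 : ℝ) / 4) ≤ c0 ^ a * (i : ℝ) ^ ((91 : ℝ) / 25) := by
    have hk : k = j + (k - j) := by omega
    have e1 : ((p ^ k : ℕ) : ℝ) = ((p ^ j : ℕ) : ℝ) * ((p ^ (k - j) : ℕ) : ℝ) := by
      rw [← Nat.cast_mul, ← pow_add, ← hk]
    have q0 : (0 : ℝ) ≤ ((p ^ (k - j) : ℕ) : ℝ) := Nat.cast_nonneg _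
    have hpq : (p : ℝ) ≤ ((p ^ (k - j) : ℕ) : ℝ) := by
      have : p ^ 1 ≤ p ^ (k - j) := Nat.pow_le_pow_right hp.pos (by omega)
      rw [pow_one] at this
      exact_mod_cast this
    have q1 : (0 : ℝ) < ((p ^ (k - j) : ℕ) : ℝ) := by
      exact_mod_cast Nat.pow_pos hp.pos
    have hiq : ((p ^ (k - j) : ℕ) : ℝ) ≤ (i : ℝ) := by exact_mod_cast hi
    rw [e1, Real.mul_rpow (Nat.cast_nonneg _) q0]
    have s1 := ns_real p j hp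
    have s2 : (p : ℝ) ^ ((39 : ℝ) / 100) ≤ ((p ^ (k - j) : ℕ) : ℝ) ^ ((39 : ℝ) / 100) :=
      Real.rpow_le_rpow hp0 hpq (by norm_num)
    have s3 : ((p ^ (k - j) : ℕ) : ℝ) ^ ((39 : ℝ) / 100) * ((p ^ (k - j) : ℕ) : ℝ) ^ ((13 : ℝ) / 4)
        = ((p ^ (k - j) : ℕ) : ℝ) ^ ((91 : ℝ) / 25) := by
      rw [← Real.rpow_add q1]
      norm_num
    have s4 : ((p ^ (k - j) : ℕ) : ℝ) ^ ((91 : ℝ) / 25) ≤ (i : ℝ) ^ ((91 : ℝ) / 25) :=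
      Real.rpow_le_rpow q0 hiq (by norm_num)
    have s5 : c0 ^ (p ^ j) ≤ c0 ^ a := pow_le_pow_right₀ hc1 ha
    calc ((p ^ j : ℕ) : ℝ) ^ ((13 : ℝ) / 4) * ((p ^ (k - j) : ℕ) : ℝ) ^ ((13 : ℝ) / 4)
        ≤ (c0 ^ (p ^ j) * (p : ℝ) ^ ((39 : ℝ) / 100)) * ((p ^ (k - j) : ℕ) : ℝ) ^ ((13 : ℝ) / 4) :=
          mul_le_mul_of_nonneg_right s1 (Real.rpow_nonneg q0 _)
      _ ≤ (c0 ^ (p ^ j) * ((p ^ (k - j) : ℕ) : ℝ) ^ ((39 : ℝ) / 100)) *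
            ((p ^ (k - j) : ℕ) : ℝ) ^ ((13 : ℝ) / 4) :=
          mul_le_mul_of_nonneg_right (mul_le_mul_of_nonneg_left s2 (by positivity))
            (Real.rpow_nonneg q0 _)
      _ = c0 ^ (p ^ j) * ((p ^ (k - j) : ℕ) : ℝ) ^ ((91 : ℝ) / 25) := by rw [mul_assoc, s3]
      _ ≤ c0 ^ a * (i : ℝ) ^ ((91 : ℝ) / 25) :=
          mul_le_mul s5 s4 (Real.rpow_nonneg q0 _) (by positivity)
  have h1 : c0 * (m : ℝ) ≤ c0 * (c0 ^ (a - 1) * (i : ℝ) ^ ((91 : ℝ) / 25)) := by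
    rw [← mul_assoc, ← pow_succ', Nat.sub_add_cancel ha1]
    exact le_trans hm hkey
  exact le_of_mul_le_mul_left h1 hc

end Pool.Agent.H34.FI
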