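import Pool.Agent.H6.FI.TargetsB

namespace Pool.Agent.H34.FI

open _root_.FI Equiv Equiv.Perm

theorem s5r_two : ∀ u v : Fin 5, ∃ y z : Fin 5, y ≠ u ∧ y ≠ v ∧ z ≠ u ∧ z ≠ v ∧ y ≠ z := by
  decide

theorem s5r_cent (n : Perm (Fin 5)) (hn : ∀ a ∈ alternatingGroup (Fin 5), n * a = a * n) :
    n = 1 := by
  by_contra hne
  obtain ⟨x, hx⟩ : ∃ x, n x ≠ x := by
    by_contra h
    push Not at h
    exact hne (Equiv.ext h)
  obtain ⟨y, z, hyx, hyn, hzx, hzn, hyz⟩ := s5r_two x (n x)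
  have ha : swap (n x) y * swap (n x) z ∈ alternatingGroup (Fin 5) := by
    rw [mem_alternatingGroup, Equiv.Perm.sign_mul, sign_swap hyn.symm, sign_swap hzn.symm]
    norm_num
  have h1 := hn _ ha
  have h2 := congrArg (fun σ : Perm (Fin 5) => σ x) h1
  have h3 : swap (n x) z x = x := swap_apply_of_ne_of_ne hx.symm hzx.symm
  have h4 : swap (n x) y x = x := swap_apply_of_ne_of_ne hx.symm hyx.symm
  have h5 : swap (n x) z (n x) = z := swap_apply_left _ _
  have h6 : swap (n x) y z = z := swap_apply_of_ne_of_ne hzn hyz.symm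
  simp only [Perm.mul_apply] at h2
  rw [h3, h4, h5, h6] at h2
  exact hzn h2.symm

theorem pf_S5R : T_S5R := by
  intro G N hG hN hnorm hne
  have hs : IsSimpleGroup (alternatingGroup (Fin 5)) := alternatingGroup.isSimpleGroup_five
  have hM : (N.subgroupOf (alternatingGroup (Fin 5))).Normal := by
    refine ⟨fun m hm g => ?_⟩
    rw [Subgroup.mem_subgroupOf] at hm ⊢
    simpa using hnorm (g : Perm (Fin 5)) (hG g.2) _ hm
  rcases hM.eq_bot_or_eq_top with h | h
  · exfalso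
    obtain ⟨n, hn1⟩ := Subgroup.ne_bot_iff_exists_ne_one.mp hne
    apply hn1
    apply Subtype.ext
    apply s5r_cent
    intro a ha
    have hc1 : (n : Perm (Fin 5)) * a * (n : Perm (Fin 5))⁻¹ * a⁻¹ ∈ N := by
      have e : (n : Perm (Fin 5)) * a * (n : Perm (Fin 5))⁻¹ * a⁻¹
          = (n : Perm (Fin 5)) * (a * (n : Perm (Fin 5))⁻¹ * a⁻¹) := by group
      rw [e]
      exact N.mul_mem n.2 (hnorm a (hG ha) _ (N.inv_mem n.2))
    have hc2 : (n : Perm (Fin 5)) * a * (n : Perm (Fin 5))⁻¹ * a⁻¹ ∈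
        alternatingGroup (Fin 5) := by
      have hN : (alternatingGroup (Fin 5)).Normal := inferInstance
      exact Subgroup.mul_mem _ (hN.conj_mem a ha _) (Subgroup.inv_mem _ ha)
    have hb : (⟨_, hc2⟩ : alternatingGroup (Fin 5)) ∈ N.subgroupOf (alternatingGroup (Fin 5)) :=
      Subgroup.mem_subgroupOf.mpr hc1
    rw [h, Subgroup.mem_bot] at hb
    have hb' : (n : Perm (Fin 5)) * a * (n : Perm (Fin 5))⁻¹ * a⁻¹ = 1 :=
      congrArg Subtype.val hb
    rw [mul_inv_eq_one, mul_inv_eq_iff_eq_mul] at hb'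
    exact hb'
  · exact Subgroup.subgroupOf_eq_top.mp h

end Pool.Agent.H34.FI
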